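import Pool.Agent.W787.QC.Defs

open MeasureTheory Set Metric Filter Topology Real
open scoped ContDiff

noncomputable section

namespace Pool.Agent.W61.QC

open Pool.Agent.W787.QC

theorem cont : S_CONT := by
  intro Θ R δ hΘ hR hδ h
  have hdiff : Differentiable ℝ Θ := hΘ.differentiable (by simp)
  have hcf : Continuous (fun w : ℝ × E => fderiv ℝ Θ w) := hΘ.continuous_fderiv (by simp)
  have hfd : ∀ (s : ℝ) (y : E), fderiv ℝ (fun z => Θ (s, z)) y
      = (fderiv ℝ Θ (s, y)).comp (ContinuousLinearMap.inr ℝ ℝ E) := by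
    intro s y
    exact ((hdiff (s, y)).hasFDerivAt.comp y (hasFDerivAt_prodMk_right s y)).fderiv
  have hF : Continuous (fun w : ℝ × E => |Θ w - 6|) := (hΘ.continuous.sub continuous_const).abs
  have hG : Continuous (fun w : ℝ × E => ‖(fderiv ℝ Θ w).comp (ContinuousLinearMap.inr ℝ ℝ E)‖) :=
    (hcf.clm_comp continuous_const).norm
  have hopen : IsOpen {w : ℝ × E | |Θ w - 6| < δ ∧
      ‖(fderiv ℝ Θ w).comp (ContinuousLinearMap.inr ℝ ℝ E)‖ < δ} :=
    (isOpen_lt hF continuous_const).inter (isOpen_lt hG continuous_const)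
  have hK : IsCompact (closedBall (0 : E) R) := isCompact_closedBall 0 R
  have hsub : ({(0 : ℝ)} : Set ℝ) ×ˢ (closedBall (0 : E) R) ⊆ {w : ℝ × E | |Θ w - 6| < δ ∧
      ‖(fderiv ℝ Θ w).comp (ContinuousLinearMap.inr ℝ ℝ E)‖ < δ} := by
    rintro ⟨s, y⟩ ⟨hs, hy⟩
    have hs' : s = 0 := hs
    subst hs'
    have h1 := h y hy
    rw [hfd] at h1
    exact h1
  obtain ⟨u, v, hu, hv, h0u, hKv, huv⟩ := generalized_tube_lemma isCompact_singleton hK hopen hsub
  obtain ⟨ε, hε, hball⟩ := Metric.isOpen_iff.1 hu 0 (h0u rfl)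
  refine ⟨ε, hε, fun s hs0 hs y hy => ?_⟩
  have hsu : s ∈ u := hball (by rw [mem_ball, Real.dist_eq, sub_zero, abs_of_pos hs0]; exact hs)
  have h2 := huv (Set.mk_mem_prod hsu (hKv hy))
  rw [hfd]
  exact h2

end Pool.Agent.W61.QC
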